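import Pool.Agent.Lib.MP_0e6cae_nt.OM5.St6

namespace Pool.Agent.Results.MP_0e6cae_nt.Subquotients

open Pool.Agent.Lib.MP_0e6cae_nt Pool.Agent.Lib.MP_0e6cae_nt.St

theorem result (F : Type) [Field F] [NumberField F] (Γ N H : Subgroup (FAut F)) (hN : N ≤ Γ)
    (hH : H ≤ N) [(H.subgroupOf N).Normal] (x : FAut F) (hx : x ∈ N)
    (hNx : (∀ y ∈ N, ∃ i : ℤ, x ^ i * y ∈ H) ∨
      ∃ s ∈ N, s * s ∈ H ∧ s * x * s⁻¹ * x ∈ H ∧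
        ∀ y ∈ N, ∃ i : ℤ, x ^ i * y ∈ H ∨ x ^ i * s * y ∈ H)
    (hΓ : (∀ a : ℕ, a.Coprime (Nat.card N) → ∀ (i : ℕ) (g : FAut F),
        Nat.card {h : H // ∃ γ ∈ Γ, γ * (x ^ i * h) * γ⁻¹ = g} =
          Nat.card {h : H // ∃ γ ∈ Γ, γ * (x ^ (i * a) * h) * γ⁻¹ = g}) ∨
      (∀ y ∈ N, ∀ a : ℕ, a.Coprime (orderOf y) → ∃ γ ∈ Γ, γ * y * γ⁻¹ = y ^ a) ∨
      ∃ m : ℕ, Nonempty (Γ ≃* Equiv.Perm (Fin m)))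
    (S : Set (FinPl F)) (hSfin : S.Finite)
    (hS : ∀ γ ∈ Γ, ∀ w ∈ S, St.actFin γ w ∈ S) (E : St.TwoExt Γ S)
    (hA : Module.Finite (ZG Γ) E.A) (hA' : FPD (ZG Γ) E.A)
    (hB : Module.Finite (ZG Γ) E.B) (hB' : FPD (ZG Γ) E.B) :
    ∃ A B : FPMod (ZQ N H), IsFix Γ N H E.A A.carrier ∧ IsFix Γ N H E.B B.carrier ∧
      K0.mk A = K0.mk B :=
  main_fix F Γ N H hN hH x hx hNx hΓ S hSfin E hA hA' hB hB'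

end Pool.Agent.Results.MP_0e6cae_nt.Subquotients
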